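import Mathlib
import Pool.Agent.H520R2.NMDefs
import Pool.Agent.V7H70.Ham.Rand

/-!
# Hamiltonicity requires exponential size when less than `2 * log₂ n` NOT gates are used

A graph on `n` vertices is given by `n * (n - 1) / 2` bits, as in the frozen statements.  Consider
circuits of AND gates and OR gates of fan-in two and of arbitrary further gates, the `i`-th of them
with `w i` input wires and any number of outputs, computing any function.  (A NOT gate is the case
`w i = 1`; every NAND network is a circuit of this kind.)  Let `0 ≤ γ`, `0 < c` and
`γ + 16 * c < 2`.  There is `α > 0` such that for all large `n`: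

* for some distribution on the graphs with `n` vertices (uniform on a finite family) every circuit
  with `∏ (w i + 1) ≤ n ^ γ` and `(number of AND and OR gates) + ∑ w i ≤ 2 ^ (n ^ c)` decides
  correctly whether the graph has a Hamilton cycle with probability less than `1 / 2 + n ^ (-α)`;
* for every randomised circuit of this kind (a probability distribution `p` on a finite set `Ω` of
  such circuits) there is a graph on which its answer is correct with probability less than
  `1 / 2 + n ^ (-α)`.

In particular circuits with AND, OR and NOT gates, at most `γ * log₂ n` of them NOT gates, `γ < 2`,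
need more than `2 ^ (n ^ c)` gates to decide Hamiltonicity, for every `c < (2 - γ) / 16`, and a coin
toss is nearly optimal for smaller ones.  The bound `2` is best possible: by Markov and Fischer,
`2 * log₂ n` NOT gates suffice to simulate all circuits, so for `γ > 2` a superpolynomial lower
bound on the number of gates would give a negative answer to Q1; and one arbitrary gate that reads
all the `n * (n - 1) / 2` input bits decides Hamiltonicity.

Proof. Coloured bipartite cliques: the variables are the pairs of an element of one of `k` left
classes and an element of one of `k` right classes, and the function asks for one element of every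
class such that all `k ^ 2` variables of these elements are true.  A gadget of nine vertices shows
that this function, with `m` elements in each class, is a subfunction (a projection) of
Hamiltonicity on `18 * k ^ 2 * m + O(k * m)` vertices, which is linear in `m` for given `k`.  The
classes are divided into `M` blocks, with `m = M * q`; in each of the `M ^ 2` pairs of blocks an
average-case version of Razborov's method, with closed families of vertex sets, shows that monotone
circuits do not distinguish a random biclique from a random graph of density close to one; and
filling the pairs of blocks one after the other with random bits eliminates the non-monotone gates,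
because the bits that enter them change fewer than `∏ (w i + 1)` times.
-/

namespace Pool.Agent.Results.MP_6b3410_lc.FewNegationsH70

open Filter Finset Pool.Agent.H520R2.NM

open Classical in
theorem result (γ c : ℝ) (hγ : 0 ≤ γ) (hc : 0 < c) (h : γ + 16 * c < 2) :
    ∃ α : ℝ, 0 < α ∧ ∀ᶠ n : ℕ in atTop,
      (∃ (Λ : Type) (_ : Fintype Λ) (_ : Nonempty Λ)
        (x : Λ → {p : Fin n × Fin n // p.1 < p.2} → Bool),
        ∀ (N : ℕ) (C : Circuit {p : Fin n × Fin n // p.1 < p.2} N)
          (out : Wire {p : Fin n × Fin n // p.1 < p.2} N),
          (((C.fanins.map (· + 1)).prod : ℕ) : ℝ) ≤ (n : ℝ) ^ γ →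
          ((C.size + C.fanins.sum : ℕ) : ℝ) ≤ 2 ^ (n : ℝ) ^ c →
          ((univ.filter fun l : Λ => (out.eval (x l) (C.vals (x l)) = true ↔
            (SimpleGraph.fromRel (fun i j : Fin n =>
              ∃ h : i < j, x l ⟨(i, j), h⟩ = true)).IsHamiltonian)).card : ℝ) <
            (1 / 2 + (n : ℝ) ^ (-α)) * Fintype.card Λ) ∧
      ∀ (Ω : Type) [Fintype Ω] (p : Ω → ℝ), (∀ r, 0 ≤ p r) → ∑ r, p r = 1 →
        ∀ (N : Ω → ℕ) (C : ∀ r, Circuit {p : Fin n × Fin n // p.1 < p.2} (N r))
          (out : ∀ r, Wire {p : Fin n × Fin n // p.1 < p.2} (N r)),
          (∀ r, ((((C r).fanins.map (· + 1)).prod : ℕ) : ℝ) ≤ (n : ℝ) ^ γ) →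
          (∀ r, (((C r).size + (C r).fanins.sum : ℕ) : ℝ) ≤ 2 ^ (n : ℝ) ^ c) →
          ∃ x : {p : Fin n × Fin n // p.1 < p.2} → Bool,
            ∑ r ∈ univ.filter (fun r => (out r).eval x ((C r).vals x) = true ↔
              (SimpleGraph.fromRel (fun i j : Fin n =>
                ∃ h : i < j, x ⟨(i, j), h⟩ = true)).IsHamiltonian), p r <
              1 / 2 + (n : ℝ) ^ (-α) :=
  Pool.Agent.V7H70.Ham.main_rand γ c hγ hc h

end Pool.Agent.Results.MP_6b3410_lc.FewNegationsH70
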