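import Mathlib
import Pool.Agent.V7H65.HD.Main2

/-!
Circuits of small formal degree, with guesses or random bits, do not separate the graphs with a
Hamilton cycle from the graphs all of whose cycles are short.
-/

set_option autoImplicit false

namespace Pool.Agent.Results.MP_6b3410_lc.FormalDegreeH65

open Finset Pool.Agent.H526R2.GI Pool.Agent.W896.RK Pool.Agent.W896.HP Pool.Agent.V7H65.RK
  Pool.Agent.V7H65.HD

/-- Let `U` be a circuit (literals at the inputs, conjunctions of fan-in two, disjunctions of any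
fan-in) whose inputs are the adjacency bits `x` of a graph on `n` vertices and `g` further bits `y`,
and let the formal degrees of `U` in the adjacency bits have sum at most `k n²`; the bits `y` may be
read arbitrarily often. Let `P` be the class of the Hamiltonian two-regular graphs on `n` vertices
and `N` the class of the two-regular graphs on `n` vertices all of whose components have at most
`n / t` vertices. If `U` accepts `(x, y)` for at least `2 ^ (g - μ)` of all `y` whenever `x` is in
`P`, and for no `y` when `x` is in `N`, then the logarithm of the size of `U` is at least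
`n / (t 2 ^ (1000 (k + 1))) - μ - log t - 1`. The same holds with `P` and `N` exchanged. -/
theorem result (n k g μ t : ℕ) (ht : 1 ≤ t) (U : Circ (Pr n ⊕ Fin g)) (d : U.G → Pr n → ℕ)
    (hd : IsDeg U Sum.inl d) (hk : ∑ e, d U.out e ≤ k * n ^ 2)
    (P N A B : (Pr n → Bool) → Prop)
    (hP : P = fun x => (∀ v, ((graph x).neighborSet v).ncard = 2) ∧ (graph x).IsHamiltonian)
    (hN : N = fun x => (∀ v, ((graph x).neighborSet v).ncard = 2) ∧
      ∀ v, t * {w | (graph x).Reachable v w}.ncard ≤ n)
    (hAB : (A = P ∧ B = N) ∨ (A = N ∧ B = P))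
    (hA : ∀ x, A x → 2 ^ g ≤ 2 ^ μ * Nat.card {y : Fin g → Bool // U.Val (Sum.elim x y) U.out})
    (hB : ∀ x, B x → ∀ y, ¬ U.Val (Sum.elim x y) U.out) :
    n ≤ t * 2 ^ (1000 * (k + 1)) * (μ + Nat.log 2 (Fintype.card U.G) + Nat.log 2 t + 1) := by
  classical
  have : NeZero t := ⟨by omega⟩
  have hfill : ∀ (y : Fin g → Bool) (x : Pr n → Bool),
      fill (Sum.inl : Pr n → Pr n ⊕ Fin g) (Sum.elim (fun _ => false) y) x = Sum.elim x y := by
    intro y x
    funext v
    rcases v with e | i
    · exact fill_apply Sum.inl_injective _ _ _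
    · exact fill_other _ _ (fun e => by simp)
  have hcard : Nat.card (Fin g → Bool) = 2 ^ g := by
    rw [Nat.card_eq_fintype_card, Fintype.card_fun, Fintype.card_bool, Fintype.card_fin]
  have p1 : ∀ (m q : ℕ) [NeZero m] (hq : 3 * t ≤ q), n = 24 * m * t + q →
      ∀ ω : Fin t → Pos m → Fin n, InjT ω → P (inpT hq ω (fun _ => strt m 1)) := by
    intro m q _ hq hn ω hω
    rw [hP]
    exact ⟨twoRegT hq ω hω hn (fun _ => 1), hamT hq ω hω hn⟩
  have p0 : ∀ (m q : ℕ) [NeZero m] (hq : 3 * t ≤ q), n = 24 * m * t + q → 6 * t ≤ n →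
      ∀ ω : Fin t → Pos m → Fin n, InjT ω → N (inpT hq ω (fun _ => strt m 0)) := by
    intro m q _ hq hn hn6 ω hω
    rw [hN]
    exact ⟨twoRegT hq ω hω hn (fun _ => 0), smallT hq ω hω hn hn6⟩
  rcases hAB with ⟨rfl, rfl⟩ | ⟨rfl, rfl⟩
  · refine mainT k μ t Sum.inl Sum.inl_injective
      (fun y : Fin g → Bool => Sum.elim (fun _ => false) y) U d hd hk 1 0 (Or.inr ⟨rfl, rfl⟩) ?_ ?_
    · intro m q _ hq hn _ ω hω
      simp only [hfill]
      rw [hcard]
      exact hA _ (p1 m q hq hn ω hω)
    · intro m q _ hq hn hn6 ω hω y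
      simp only [hfill]
      exact hB _ (p0 m q hq hn hn6 ω hω) y
  · refine mainT k μ t Sum.inl Sum.inl_injective
      (fun y : Fin g → Bool => Sum.elim (fun _ => false) y) U d hd hk 0 1 (Or.inl ⟨rfl, rfl⟩) ?_ ?_
    · intro m q _ hq hn hn6 ω hω
      simp only [hfill]
      rw [hcard]
      exact hA _ (p0 m q hq hn hn6 ω hω)
    · intro m q _ hq hn _ ω hω y
      simp only [hfill]
      exact hB _ (p1 m q hq hn ω hω) y

end Pool.Agent.Results.MP_6b3410_lc.FormalDegreeH65
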