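import Mathlib
import Pool.Agent.V7H70.Fml.NetDefs
import Pool.Agent.V7H70.Fml.Main

/-!
# NAND networks with little sharing need `n ^ (5 - o(1))` wires for Hamiltonicity

A graph on `n` vertices is given by `n * (n - 1) / 2` bits, as in the frozen statements.  Consider
networks of NAND gates of arbitrary fan-in.  The inputs of a network are arbitrary functions of at
most `k` of the bits (for ordinary networks `k = 1`) and guess bits: the network accepts a graph if
it outputs true for some values of the guess bits.  The amount of sharing of a network is the number
of wires that leave guess bits plus the sum of `max (fan-out - 1, 0)` over all gates; wires that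
leave the input functions are not counted.  It is zero for formulas, that is, for networks without
guess bits in which every gate has fan-out at most one.

The theorem: for every `δ > 0` and all large `n`, a network that accepts exactly the Hamiltonian
graphs on `n` vertices and has at most `n ^ (2 - δ)` sharing has at least `n ^ (5 - δ) / k ^ 3` wires
that leave its input functions, for all `k ≤ n ^ (1 - δ)`.

In terms of the number `M = n * (n - 1) / 2` of input bits the bound is `M ^ (5 / 2 - o(1))` for
fixed `k`; Nechiporuk's method does not give more than `M ^ 2 / log M = O (n ^ 4 / log n)`.  Some
restriction on sharing is needed for bounds of this kind as long as Q1 is open, and without any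
restriction nothing better than a linear lower bound is known for functions in NP.

Proof. Let `U` be a table on `2 * a` bits with `2 ^ a` close to `n`.  A graph on `n` vertices is
built in which for each of the `2 * a` bits a pair of strands is braided: a variable edge is present
or not, according to a bit `y (t, j)`, and makes the strands cross; `w = n ^ (1 - o(1))` crossings
for each `t` compute the parity of `y (t, 1), ..., y (t, w)`.  The graph has a Hamilton cycle if and
only if `U` is true at these parities: the rows and columns of the table, nearly `n ^ 2` entries,
are edges between `2 * 2 ^ a` chains of gadgets, one chain on each side is selected, and its gadgets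
compare its address with the parities, because otherwise one of the strands would close up.  The
variables occupy `O (a * w)` pairs of vertices, so a random relabelling of the vertices makes all
but a fraction `k * n ^ (-1 + o(1))` of the input wires constant.  The gates that are shared are
replaced by guesses, the remaining network is a formula with few guess leaves, which is decomposed
into pieces of size `l = (n / k) ^ (2 - o(1))`, and a random restriction that keeps `n ^ o(1)`
variables alive in every block simplifies each piece to constant size (shrinkage, from the library
of this repository).  What remains computes `U` with `n ^ (2 - δ)` guess leaves and few pieces, and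
by counting some table `U` needs nearly `n ^ 2` leaves even with guesses.
-/

namespace Pool.Agent.Results.MP_6b3410_lc.LittleSharingH70

open Filter Pool.Agent.V7H70.Fml

theorem result (δ : ℝ) (hδ : 0 < δ) : ∀ᶠ n : ℕ in atTop,
    ∀ (k : ℕ) (N : Net {p : Fin n × Fin n // p.1 < p.2}), 1 ≤ k → (k : ℝ) ≤ (n : ℝ) ^ (1 - δ) →
      (∀ j, ∃ A : Finset {p : Fin n × Fin n // p.1 < p.2}, A.card ≤ k ∧
        ∀ x y, (∀ i ∈ A, x i = y i) → N.fn j x = N.fn j y) →
      (∀ x, N.Accepts x ↔ (SimpleGraph.fromRel
        (fun i j : Fin n => ∃ h : i < j, x ⟨(i, j), h⟩ = true)).IsHamiltonian) →
      ((N.guessWires + N.excess : ℕ) : ℝ) ≤ (n : ℝ) ^ (2 - δ) →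
      (n : ℝ) ^ (5 - δ) / (k : ℝ) ^ 3 ≤ N.inpWires :=
  main_net δ hδ

end Pool.Agent.Results.MP_6b3410_lc.LittleSharingH70
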