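import Mathlib
import Pool.Agent.V7H65.LS.Fin

/-!
Circuits and semidefinite programs for Hamiltonicity which are symmetric under the even permutations
of some disjoint quadruples of vertices only.

Definitions used from the library files:

* `SDP I D` (`Pool/Agent/H550R2/Lift/Prog.lean`): a semidefinite program of order `|D|` with input
  variables `I`, an affine space `L` of pairs of an input vector and a matrix; it accepts the vector
  `v` if some positive semidefinite matrix `Y` has `(v, Y) ∈ L` (`SDP.Acc`); `gvec G` is the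
  characteristic vector of the set of edges of the graph `G`; `P.SymOn edPerm b`: every even
  permutation of the four vertices in the block `b`, with all other vertices fixed, extends to an
  automorphism of the program `P`, an orthogonal matrix `T` such that `(v, Y) ∈ L` if and only if
  `(p v, T Y Tᵀ) ∈ L`.
* `Net V Gt` (`Pool/Agent/H545R2/SymNet.lean`): acyclic networks reading a graph on `V`, with set of
  gates `Gt`; an input gate reads an edge variable, every other gate `g` outputs `F g k`, where `k`
  is the number of its true incoming wires, and `w h g` is the number of wires from `h` to `g`;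
  `IsNand`: all gates except the input gates are NAND gates.
* `NetSymOn N b`: every even permutation of the four vertices in the block `b`, with all other
  vertices fixed, extends to an automorphism of the network.
-/

set_option autoImplicit false

namespace Pool.Agent.Results.MP_6b3410_lc.LocallySymmetricH65

open Pool.Agent.H545R2 Pool.Agent.V7H65.LS
open Pool.Agent.H550R2.Lift (SDP gvec edPerm)

/-- The network decides whether a graph is Hamiltonian. -/
def Decides {V Gt : Type} [Fintype V] [DecidableEq V] [Fintype Gt] (N : Net V Gt) : Prop :=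
  ∀ G : SimpleGraph V, N.val G N.out = true ↔ G.IsHamiltonian

/-- The blocks are pairwise disjoint. -/
def DisjointBlocks {V : Type} {r : ℕ} (blk : Fin r → (Fin 4 ↪ V)) : Prop :=
  Pairwise fun i j => Disjoint (Set.range (blk i)) (Set.range (blk j))

/-- There are circuits of NAND gates of polynomial size for Hamiltonicity which are symmetric on
any given at most `ρ n` disjoint quadruples of vertices. -/
def PolynomialSize (ρ : ℕ → ℕ) : Prop :=
  ∃ e : ℕ, ∀ n r : ℕ, r ≤ ρ n → ∀ blk : Fin r → (Fin 4 ↪ Fin n), DisjointBlocks blk →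
    ∃ (Gt : Type) (_ : Fintype Gt) (N : Net (Fin n) Gt), N.IsNand ∧
      Fintype.card Gt ≤ n ^ e + e ∧ Decides N ∧ ∀ i, NetSymOn N (blk i)

/-- 1. If `V` has `r ≥ 246000 k > 0` disjoint quadruples then there are a Hamiltonian graph `G` and a
non-Hamiltonian graph `G'` on `V` which are treated in the same way by

* all semidefinite programs of order less than `3 ^ (k / 2)`,
* all networks with `s` gates, which compute arbitrary functions of the number of their true inputs
  and have fan-in at most `K`, with `s (K + 1) (2 s + 1) < 3 ^ (k / 2)`,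
* all circuits of NAND gates with `36 s ^ 6 < 3 ^ k`,

that are symmetric on all the quadruples.

2. For every `e` and every choice of `r ≥ 4920000 (e + 1) log n` disjoint quadruples of the `n ≥ 2`
vertices, no networks with at most `n ^ e + e` gates of fan-in at most `n ^ e + e`, symmetric on the
quadruples, decide Hamiltonicity.

3. Circuits of polynomial size for Hamiltonicity exist if and only if there are such circuits which
are symmetric on any given at most `log n` disjoint quadruples of vertices.

4. A semidefinite program which decides Hamiltonicity (or non-Hamiltonicity) can be made symmetric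
on any `r` disjoint quadruples if its order is multiplied by `12 ^ r`. -/
theorem result :
    (∀ (V : Type) [Fintype V] [DecidableEq V] (r k : ℕ), 0 < k → 246000 * k ≤ r →
      ∀ blk : Fin r → (Fin 4 ↪ V), DisjointBlocks blk →
      ∃ G G' : SimpleGraph V, G.IsHamiltonian ∧ ¬ G'.IsHamiltonian ∧
        (∀ (D : Type) [Fintype D] [DecidableEq D] (P : SDP (Sym2 V) D),
          (∀ i, P.SymOn edPerm (blk i)) → Fintype.card D ^ 2 < 3 ^ k →
          (P.Acc (gvec G) ↔ P.Acc (gvec G'))) ∧
        (∀ (Gt : Type) [Fintype Gt] (N : Net V Gt) (K : ℕ), (∀ i, NetSymOn N (blk i)) →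
          (∀ g, N.inp g = none → ∑ h, N.w h g ≤ K) →
          (Fintype.card Gt * (K + 1) * (2 * Fintype.card Gt + 1)) ^ 2 < 3 ^ k →
          N.val G N.out = N.val G' N.out) ∧
        ∀ (Gt : Type) [Fintype Gt] (N : Net V Gt), N.IsNand → (∀ i, NetSymOn N (blk i)) →
          36 * Fintype.card Gt ^ 6 < 3 ^ k → N.val G N.out = N.val G' N.out) ∧
    (∀ e n r : ℕ, 2 ≤ n → 4920000 * (e + 1) * Nat.log 2 n ≤ r →
      ∀ blk : Fin r → (Fin 4 ↪ Fin n), DisjointBlocks blk →
      ∀ (Gt : Type) [Fintype Gt] (N : Net (Fin n) Gt), (∀ i, NetSymOn N (blk i)) →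
        Fintype.card Gt ≤ n ^ e + e → (∀ g, N.inp g = none → ∑ h, N.w h g ≤ n ^ e + e) →
        ¬ Decides N) ∧
    (PolynomialSize (fun _ => 0) ↔ PolynomialSize (fun n => Nat.log 2 n)) ∧
    (∀ (V D : Type) [Fintype V] [DecidableEq V] [Fintype D] [DecidableEq D] (P : SDP (Sym2 V) D)
      (b : Prop), (∀ G : SimpleGraph V, (P.Acc (gvec G) ↔ (G.IsHamiltonian ↔ b))) →
      ∀ (r : ℕ) (blk : Fin r → (Fin 4 ↪ V)), DisjointBlocks blk →
      ∃ (D' : Type) (_ : Fintype D') (_ : DecidableEq D') (P' : SDP (Sym2 V) D'),
        Fintype.card D' = 12 ^ r * Fintype.card D ∧ (∀ i, P'.SymOn edPerm (blk i)) ∧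
        ∀ G : SimpleGraph V, (P'.Acc (gvec G) ↔ (G.IsHamiltonian ↔ b))) := by
  classical
  refine ⟨?_, ?_, ⟨?_, ?_⟩, ?_⟩
  · intro V _ _ r k hk hr blk hd
    obtain ⟨G, G', h1, h2, h3⟩ := ham_pair V r k hk hr blk hd
    refine ⟨G, G', h1, h2, h3, ?_, ?_⟩
    · intro Gt _ N K hN hK hs
      exact net_of_sdp h3 N hN K hK hs
    · intro Gt _ N hnand hN hs
      exact nand_of_sdp h3 N hnand hN hs
  · intro e n r hn hr blk hd Gt _ N hN hs hK hdec
    have hL : 1 ≤ Nat.log 2 n := Nat.log_pos (by norm_num) hn
    obtain ⟨k, hk⟩ : ∃ k, k = 20 * (e + 1) * Nat.log 2 n := ⟨_, rfl⟩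
    have hk0 : 0 < k := by
      rw [hk]
      exact Nat.mul_pos (Nat.mul_pos (by norm_num) (Nat.succ_pos e)) hL
    have hkr : 246000 * k ≤ r := by
      refine le_trans (le_of_eq ?_) hr
      rw [hk]
      ring
    obtain ⟨G, G', h1, h2, h3⟩ := ham_pair (Fin n) r k hk0 hkr blk hd
    have h4 := net_of_sdp h3 N hN (n ^ e + e) hK
      (low_arith n e k (Fintype.card Gt) (n ^ e + e) hn hk.ge hs le_rfl)
    exact h2 ((hdec G').1 (h4 ▸ (hdec G).2 h1))
  · rintro ⟨e, he⟩
    refine ⟨e + 7, fun n r hr blk hd => ?_⟩
    obtain ⟨Gt, _, N, h1, h2, h3, -⟩ := he n 0 le_rfl (fun i => i.elim0) (fun i => i.elim0)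
    refine ⟨SG4 Gt r, inferInstance, symNet4 N (H550R2.Lift.blkE blk hd),
      symNet4_nand N _ h1, ?_, symNet4_ham N _ h3, symNet4_sym N blk hd⟩
    rw [card_SG4]
    refine le_trans ?_ (up_arith n e r hr)
    have := Nat.mul_le_mul_left (12 ^ r) (Nat.succ_le_succ h2)
    exact Nat.succ_le_succ this
  · rintro ⟨e, he⟩
    exact ⟨e, fun n r hr blk hd => he n r (le_trans hr (Nat.zero_le _)) blk hd⟩
  · intro V D _ _ _ _ P b hP r blk hd
    exact ham_upper V D P b hP r blk hd

end Pool.Agent.Results.MP_6b3410_lc.LocallySymmetricH65
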